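import Pool.Agent.H44.Lac2

open MeasureTheory ProbabilityTheory Filter Topology Real Pool.Agent.H44.Lac

theorem Pool.Agent.Results.MP_78f804_pr.Q1False.result
    {Ω : Type} [MeasurableSpace Ω] (P : Measure Ω) [IsProbabilityMeasure P] (A : Ω → Set ℕ)
    (h0 : ∀ ω, 0 ∉ A ω) (hm : ∀ i, MeasurableSet {ω | i ∈ A ω})
    (hi : iIndepSet (fun i => {ω | i ∈ A ω}) P)
    (hp : ∀ i : ℕ, 1 ≤ i → P.real {ω | i ∈ A ω} = min 1 (1 / (i * log 2))) :
    ¬ ∀ᵐ ω ∂P, ∃ C : ℝ, 0 < C ∧ Tendsto (fun n : ℕ =>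
      √(log n) * ((subsetSums (A ω) ∩ Set.Icc 1 n).ncard : ℝ) / n) atTop (𝓝 C) := by
  intro h
  set μ : ℕ → ℝ := fun n => ∑ i ∈ Finset.Icc 1 n, pp i with hμ
  set B : ℕ → Set Ω := fun n => {ω | 1 < √(6 / μ n) * (μ n - ∑ i ∈ Finset.Icc 1 n,
    {ω | i ∈ A ω}.indicator (fun _ => (1 : ℝ)) ω)} with hB
  have hBm : ∀ n, MeasurableSet (B n) := fun n => measurableSet_lt measurable_const
    (measurable_const.mul (measurable_const.sub
      (Finset.measurable_sum _ fun i _ => measurable_const.indicator (hm i))))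
  have hbig : ∀ᶠ n : ℕ in atTop, 72 ≤ μ n :=
    ((tendsto_log_atTop.comp tendsto_natCast_atTop_atTop).eventually_ge_atTop 72).mono
      fun n hn => le_trans hn (mu_low n)
  have h1 : ∀ᵐ ω ∂P, ∀ᶠ n in atTop, ω ∈ B n ↔ ω ∈ (∅ : Set Ω) := by
    filter_upwards [h] with ω ⟨C, hC, hT⟩
    filter_upwards [hT.eventually (lt_mem_nhds (half_lt_self hC)),
      small.eventually (gt_mem_nhds (half_pos hC)), hbig, eventually_ge_atTop 1]
      with n a1 a2 a3 a4
    refine ⟨fun hω => ?_, fun hω => hω.elim⟩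
    have := ratio (h0 ω) a4 (μ := μ n) rfl (by linarith) hω
    exact absurd (a1.trans_le this) (not_lt.2 a2.le)
  have h2 := tendsto_measure_of_ae_tendsto_indicator_of_isFiniteMeasure atTop
    MeasurableSet.empty hBm h1
  have h3 : Tendsto (fun n => P.real (B n)) atTop (𝓝 0) := by
    have := (ENNReal.tendsto_toReal (measure_ne_top P ∅)).comp h2
    simpa [Measure.real, Function.comp_def] using this
  obtain ⟨n, a1, a2⟩ := ((h3.eventually (gt_mem_nhds (exp_pos (-12)))).and hbig).exists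
  have hs : ∀ i ∈ Finset.Icc 1 n, P.real {ω | i ∈ A ω} = pp i :=
    fun i hi => hp i (Finset.mem_Icc.1 hi).1
  have hq : √(6 / μ n) ^ 2 = 6 / μ n := sq_sqrt (by positivity)
  have hq2 : 6 / μ n ≤ 1 / 12 := by rw [div_le_iff₀ (by positivity)]; linarith
  have key := tail hm hi (Finset.Icc 1 n) (μ := μ n) (θ := √(6 / μ n))
    (Finset.sum_congr rfl hs).symm (sqrt_pos.2 (by positivity))
    (by rw [sqrt_le_iff]; constructor <;> linarith)
    (by rw [hq]; field_simp) (by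
      rw [hq, Finset.sum_congr rfl fun i hi => by rw [hs i hi]]
      have := sq_up n
      have h5 : 0 ≤ ∑ i ∈ Finset.Icc 1 n, pp i ^ 2 := Finset.sum_nonneg fun _ _ => sq_nonneg _
      nlinarith)
  exact absurd (key.trans_lt a1) (lt_irrefl _)
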